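import Mathlib
import Pool.Agent.H244Z.MinPrimes

set_option autoImplicit false

namespace Pool.Agent.Results.MP_07e2b8_al.Counterexample

open CategoryTheory

/-- There are a Noetherian local ring `R`, a nonzero finitely generated module `N` of projective
dimension one and a minimal prime `p` of `R` contained in no prime minimal over the annihilator
of `N`. -/
theorem result :
    ∃ (R : Type) (_ : CommRing R) (_ : IsNoetherianRing R) (_ : IsLocalRing R)
      (N : ModuleCat.{0} R) (_ : Module.Finite R N) (_ : Nontrivial N),
      projectiveDimension N = 1 ∧
      ∃ p ∈ minimalPrimes R, ∀ q ∈ (Module.annihilator R N).minimalPrimes, ¬ p ≤ q :=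
  Pool.Agent.H244Z.MinPrimes.main

end Pool.Agent.Results.MP_07e2b8_al.Counterexample
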